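import Pool.Agent.H93.EN.Targets4
import Pool.Agent.H93.BL.Final

/-!
# Bright corners (`MP_009700_an`), row DEN: density of the orbits
-/

namespace Pool.Agent.H19.EN

open MeasureTheory Set Metric Filter Topology Pool.Agent.H93.EN
open Pool.Agent.H93.BL hiding T_B1 T_B2 T_B3 T_SB T_SC

theorem pos_notMem {ι : Type} (P : Polygon ι) (z : ι × ℝ × ℝ) (hz : P.Phase z) :
    P.pos z ∉ P.Ω := by
  have h1 := (Pool.Agent.H93.BL.Final.pB1 ι P z z).1 hz
  have h2 : P.pos z ∈ frontier P.Ω := by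
    rw [P.frontier_eq]
    exact mem_iUnion.2 ⟨z.1, openSegment_subset_segment _ _ _ h1.1⟩
  rw [P.isOpen.frontier_eq] at h2
  exact h2.2

theorem desc {ι : Type} (P : Polygon ι) (f : ℤ → ι × ℝ × ℝ)
    (hf : ∀ n, P.Step (f n) (f (n + 1))) (z' : ι × ℝ × ℝ)
    (h : Relation.ReflTransGen P.Step (f 0) z') : ∃ m : ℤ, z' = f m := by
  induction h with
  | refl => exact ⟨0, rfl⟩
  | tail _ h2 ih =>
    obtain ⟨m, rfl⟩ := ih
    exact ⟨m + 1, (Pool.Agent.H93.BL.Final.pB3 ι P _ _ _).1 h2 (hf m)⟩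

theorem den : T_DEN := by
  intro ι _ P h i
  have h7 := Pool.Agent.H93.BL.Final.pM7 ι P (fun _ => ∅) (fun i => by simp) i
  have hcount : ∀ᵐ z ∂(P.liouville i), ∀ U ∈ TopologicalSpace.countableBasis ℂ,
      U ⊆ P.Ω → U.Nonempty → PR P ∅ U (i, z) := by
    rw [ae_ball_iff (TopologicalSpace.countable_countableBasis ℂ)]
    intro U hU
    by_cases h1 : U ⊆ P.Ω ∧ U.Nonempty
    · filter_upwards [h U (TopologicalSpace.isOpen_of_mem_countableBasis hU) h1.1 h1.2 i]
        with z hz _ _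
      exact hz
    · filter_upwards with z h2 h3
      exact absurd ⟨h2, h3⟩ h1
  filter_upwards [h7, hcount] with z hz1 hz2
  obtain ⟨f, hf0, hf⟩ := hz1
  intro x hx
  rw [_root_.mem_closure_iff]
  intro o ho hxo
  obtain ⟨U, hU, hxU, hUo⟩ := (TopologicalSpace.isBasis_countableBasis ℂ).exists_subset_of_mem_open
    (show x ∈ o ∩ P.Ω from ⟨hxo, hx⟩) (ho.inter P.isOpen)
  obtain ⟨z', hz', hz'2⟩ := hz2 U hU (fun y hy => (hUo hy).2) ⟨x, hxU⟩
  rcases hz'2 with h1 | ⟨r, hr0, hrU, hr⟩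
  · exact absurd h1 (by simp)
  rw [← hf0] at hz'
  obtain ⟨m, rfl⟩ := desc P f (fun n => (hf n).1) z' hz'
  have hstep := (hf m).1
  obtain ⟨hp1, hp2, t, ht, htp, -, -⟩ := hstep
  have hrne : r ≠ 0 := by
    intro h0
    rw [h0] at hrU
    have h1 := (hUo hrU).2
    rw [Complex.ofReal_zero, zero_mul, add_zero] at h1
    exact pos_notMem P _ hp1 h1
  have hrpos : 0 < r := lt_of_le_of_ne hr0 (Ne.symm hrne)
  have hrt : r < t := by
    by_contra hle
    have h1 := hr t ⟨ht, not_lt.1 hle⟩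
    rw [← htp] at h1
    exact pos_notMem P _ hp2 h1
  refine ⟨P.pos (f m) + (r : ℂ) * P.dir (f m), (hUo hrU).1, f m, f (m + 1), ?_, (hf m).1, ?_⟩
  · rw [← hf0]
    exact hz'
  · refine ⟨1 - r / t, r / t, ?_, by positivity, by ring, ?_⟩
    · rw [sub_pos, div_lt_one ht]
      exact hrt
    · rw [htp]
      have ht' : (t : ℂ) ≠ 0 := by exact_mod_cast ht.ne'
      rw [Complex.real_smul, Complex.real_smul]
      push_cast
      field_simp
      ring

end Pool.Agent.H19.EN
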