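import Pool.Agent.H93.EN.Targets4
import Pool.Agent.H93.BL.Final

/-!
# Bright corners (`MP_009700_an`), row IRR: irrational corners with one lit direction
-/

namespace Pool.Agent.H19.EN

open MeasureTheory Set Metric Filter Topology Pool.Agent.H93.EN
open Pool.Agent.H93.BL hiding T_B1 T_B2 T_B3 T_SB T_SC

/-- words of reflections in two sides -/
def wrd {ι : Type} (i j : ι) : ℕ → List ι
  | 0 => []
  | k + 1 => i :: j :: wrd i j k

theorem mem_wrd {ι : Type} (i j : ι) (n : ℕ) : ∀ k ∈ wrd i j n, k = i ∨ k = j := by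
  induction n with
  | zero => intro k hk; simp [wrd] at hk
  | succ n ih =>
    intro k hk
    simp only [wrd, List.mem_cons] at hk
    rcases hk with h | h | h
    · exact Or.inl h
    · exact Or.inr h
    · exact ih k h

theorem norm_u {ι : Type} (P : Polygon ι) (j : ι) : ‖P.u j‖ = 1 := by
  have h1 : P.q j - P.p j ≠ 0 := sub_ne_zero.2 (P.ne j).symm
  have h2 : (0 : ℝ) < ‖P.q j - P.p j‖ := norm_pos_iff.2 h1
  unfold Polygon.u Polygon.len
  rw [norm_div, Complex.norm_real, norm_norm, div_self h2.ne']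

theorem refl_refl {ι : Type} (P : Polygon ι) (i j : ι) (α : ℝ) (h : -P.u i = uv P j α) (v : ℂ) :
    P.refl i (P.refl j v) = Complex.exp ((2 * α : ℝ) * Complex.I) * v := by
  have h1 : P.u i = -(Complex.exp ((α : ℂ) * Complex.I) * P.u j) := by
    rw [← neg_neg (P.u i), h]
    rfl
  have h2 : P.u j * (starRingEnd ℂ) (P.u j) = 1 := by
    rw [Complex.mul_conj, Complex.normSq_eq_norm_sq, norm_u]
    simp
  unfold Polygon.refl
  rw [map_mul, map_pow, Complex.conj_conj, h1]
  have h3 : Complex.exp ((2 * α : ℝ) * Complex.I) = Complex.exp ((α : ℂ) * Complex.I) ^ 2 := by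
    rw [← Complex.exp_nat_mul]
    congr 1
    push_cast
    ring
  rw [h3]
  calc (-(Complex.exp ((α : ℂ) * Complex.I) * P.u j)) ^ 2 * ((starRingEnd ℂ) (P.u j) ^ 2 * v)
      = Complex.exp ((α : ℂ) * Complex.I) ^ 2 * (P.u j * (starRingEnd ℂ) (P.u j)) ^ 2 * v := by
        ring
    _ = Complex.exp ((α : ℂ) * Complex.I) ^ 2 * v := by rw [h2, one_pow, mul_one]

theorem reflW_wrd {ι : Type} (P : Polygon ι) (i j : ι) (α : ℝ) (h : -P.u i = uv P j α) (v : ℂ)
    (n : ℕ) : reflW P (wrd i j n) v = Complex.exp ((2 * α : ℝ) * Complex.I) ^ n * v := by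
  induction n with
  | zero => simp [wrd, reflW]
  | succ n ih =>
    have h1 : reflW P (wrd i j (n + 1)) v = P.refl i (P.refl j (reflW P (wrd i j n) v)) := rfl
    rw [h1, refl_refl P i j α h, ih, pow_succ]
    ring

theorem irr (h1 : T_OPV) : T_IRR := by
  intro ι _ P E U hU hUΩ i j α hcor hirr hφ
  obtain ⟨φ, hφ, hRU⟩ := hφ
  obtain ⟨ε, hε, -, h2⟩ := h1 ι P E U hU hUΩ i j α φ hcor hφ hRU
  have hui := hcor.2.2.2.1
  set z : ℂ := Complex.exp ((2 * α : ℝ) * Complex.I) with hz
  have hznorm : ‖z‖ = 1 := Complex.norm_exp_ofReal_mul_I _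
  have hzn : ∀ n : ℕ, 0 < n → z ^ n ≠ 1 := by
    intro n hn h
    rw [hz, ← Complex.exp_nat_mul, Complex.exp_eq_one_iff] at h
    obtain ⟨m, hm⟩ := h
    have h3 : ((n : ℝ) * (2 * α) : ℝ) = m * (2 * Real.pi) := by
      have h4 : (((n : ℝ) * (2 * α) : ℝ) : ℂ) * Complex.I = ((m * (2 * Real.pi) : ℝ) : ℂ) * Complex.I := by
        push_cast
        rw [show (n : ℂ) * (2 * (α : ℂ)) * Complex.I = (n : ℂ) * (((2 * α : ℝ) : ℂ) * Complex.I) by
          push_cast; ring, hm]
        ring
      have h5 := mul_right_cancel₀ Complex.I_ne_zero h4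
      exact_mod_cast h5
    have hn' : (n : ℝ) ≠ 0 := by exact_mod_cast hn.ne'
    have hpi := Real.pi_ne_zero
    have h6 : α / Real.pi = ((m / n : ℚ) : ℝ) := by
      push_cast
      field_simp
      linarith
    exact hirr ⟨(m / n : ℚ), h6.symm⟩
  set ε' : ℝ := min ε (Real.pi / 2) with hε'
  have hε'pos : 0 < ε' := lt_min hε (by positivity)
  have hε'pi : ε' ≤ Real.pi := (min_le_right _ _).trans (by linarith [Real.pi_pos])
  have hcos : Real.cos ε' < 1 := by
    rw [← Real.cos_zero]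
    exact Real.cos_lt_cos_of_nonneg_of_le_pi le_rfl hε'pi hε'pos
  refine Filter.Eventually.of_forall fun θ => ?_
  set w : ℂ := uv P j φ with hw
  have hwnorm : ‖w‖ = 1 := by
    rw [hw]
    unfold uv
    rw [norm_mul, Complex.norm_exp_ofReal_mul_I, norm_u, one_mul]
  have hw0 : w ≠ 0 := by
    intro h
    rw [h, norm_zero] at hwnorm
    exact zero_ne_one hwnorm
  set v : ℂ := Complex.exp ((θ : ℂ) * Complex.I) with hv
  have hvnorm : ‖v‖ = 1 := Complex.norm_exp_ofReal_mul_I _
  have hζnorm : ‖v / w‖ = 1 := by rw [norm_div, hvnorm, hwnorm, div_one]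
  obtain ⟨k, hk⟩ := (Pool.Agent.H93.BL.Final.pSB z (v / w) (Real.cos ε') hznorm hζnorm hzn hcos).1
  set q : ℂ := v / w * z ^ k with hq
  have hqnorm : ‖q‖ = 1 := by rw [hq, norm_mul, hζnorm, norm_pow, hznorm, one_pow, one_mul]
  have hqexp : q = Complex.exp ((Complex.arg q : ℂ) * Complex.I) := by
    have := Complex.norm_mul_exp_arg_mul_I q
    rw [hqnorm, Complex.ofReal_one, one_mul] at this
    exact this.symm
  have hcosarg : Real.cos (Complex.arg q) = q.re := by
    have h3 := congrArg Complex.re hqexp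
    rw [Complex.exp_ofReal_mul_I_re] at h3
    exact h3.symm
  have habs : |Complex.arg q| < ε' := by
    by_contra hle
    have h3 : Real.cos |Complex.arg q| ≤ Real.cos ε' :=
      Real.cos_le_cos_of_nonneg_of_le_pi hε'pos.le (Complex.abs_arg_le_pi q) (not_lt.1 hle)
    rw [Real.cos_abs, hcosarg] at h3
    linarith
  have habs' : |Complex.arg q| < ε := habs.trans_le (min_le_left _ _)
  have habs2 := abs_lt.1 habs'
  obtain ⟨h3, h4⟩ := h2 (φ + Complex.arg q) ⟨by linarith, by linarith⟩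
  refine ⟨wrd i j k, mem_wrd i j k, φ + Complex.arg q, h3, Or.inl ?_, h4⟩
  rw [reflW_wrd P i j α hui v k]
  have h5 : uv P j (φ + Complex.arg q) = w * q := by
    rw [hw]
    unfold uv
    push_cast
    rw [add_mul, Complex.exp_add]
    rw [← hqexp]
    ring
  rw [h5, hq, ← hz]
  field_simp

end Pool.Agent.H19.EN
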