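import Pool.Agent.H93.EN.Targets4

/-!
# Bright corners (`MP_009700_an`), row VOL: area near the bad points
-/

namespace Pool.Agent.H19.EN

open MeasureTheory Set Metric Filter Topology Pool.Agent.H93.EN
open Pool.Agent.H93.BL hiding T_B1 T_B2 T_B3 T_SB T_SC

theorem vol : T_VOL := by
  intro ι D
  have hfin := D.Bfin
  refine ⟨(hfin.toFinset.card : ℝ) * Real.pi + 1, by positivity, ?_⟩
  intro r hr
  have hsub : {x | D.rho x ≤ r} ⊆ ⋃ b ∈ hfin.toFinset, closedBall b r := by
    intro x hx
    obtain ⟨b, hb, hd⟩ := hfin.isCompact.exists_infDist_eq_dist D.Bne x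
    refine mem_iUnion₂.2 ⟨b, hfin.mem_toFinset.2 hb, ?_⟩
    rw [mem_closedBall, ← hd]
    exact hx
  have hball : ∀ b : ℂ, volume (closedBall b r) = ENNReal.ofReal (Real.pi * r ^ 2) := by
    intro b
    rw [Complex.volume_closedBall, ← ENNReal.ofReal_coe_nnreal, NNReal.coe_real_pi,
      ← ENNReal.ofReal_pow hr.le, ← ENNReal.ofReal_mul (by positivity)]
    congr 1
    ring
  calc volume {x | D.rho x ≤ r} ≤ volume (⋃ b ∈ hfin.toFinset, closedBall b r) :=
        measure_mono hsub
    _ ≤ ∑ b ∈ hfin.toFinset, volume (closedBall b r) := measure_biUnion_finset_le _ _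
    _ = ∑ _b ∈ hfin.toFinset, ENNReal.ofReal (Real.pi * r ^ 2) :=
        Finset.sum_congr rfl fun b _ => hball b
    _ = ENNReal.ofReal ((hfin.toFinset.card : ℝ) * (Real.pi * r ^ 2)) := by
        rw [Finset.sum_const, nsmul_eq_mul,
          ENNReal.ofReal_mul (p := (hfin.toFinset.card : ℝ)) (by positivity),
          ENNReal.ofReal_natCast]
    _ ≤ ENNReal.ofReal (((hfin.toFinset.card : ℝ) * Real.pi + 1) * r ^ 2) := by
        apply ENNReal.ofReal_le_ofReal
        nlinarith [sq_nonneg r]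

end Pool.Agent.H19.EN
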