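import Pool.Agent.H65.EN.Targets

/-! # Row WQT of the board enx_modules: moments of complete sums, all moduli -/

set_option autoImplicit false

open Finset MeasureTheory
open Pool.Agent.H24.CL Pool.Agent.H24.LV Pool.Agent.H31.LV Pool.Agent.H50.LV Pool.Agent.H65.EN

namespace Pool.Agent.H19.EN

lemma Wd_nonneg (d s q : ℕ) : 0 ≤ Wd d s q := by
  unfold Wd
  exact Finset.sum_nonneg fun a _ => pow_nonneg (norm_nonneg _) _

lemma Sq_one (d : ℕ) (a : Fin d → ℤ) : ‖Sq 1 a‖ ≤ 1 := by
  unfold Sq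
  rw [norm_mul, Finset.sum_range_one]
  have h1 : ∀ x : UnitAddCircle, ‖e x‖ = 1 := fun x => by
    unfold e
    exact Circle.norm_coe _
  rw [h1]
  simp

lemma Wd_one (d s : ℕ) : Wd d s 1 ≤ 1 := by
  classical
  unfold Wd
  have hc : (Red d 1).card ≤ 1 := by
    have h1 : Red d 1 ⊆ Fintype.piFinset fun _ : Fin d => range 1 := by
      unfold Red
      exact Finset.filter_subset _ _
    refine (Finset.card_le_card h1).trans ?_
    rw [Fintype.card_piFinset]
    simp
  calc ∑ a ∈ Red d 1, ‖Sq 1 (fun i : Fin d => (a i : ℤ))‖ ^ s ≤ ∑ _a ∈ Red d 1, (1 : ℝ) := by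
        apply Finset.sum_le_sum
        intro a _
        exact pow_le_one₀ (norm_nonneg _) (Sq_one d _)
    _ = ((Red d 1).card : ℝ) := by simp
    _ ≤ 1 := by exact_mod_cast hc

theorem pf_WQT (h1 : T_WPM) (h2 : T_MUW) : T_WQT := by
  intro k hk
  obtain ⟨C, A, hC, hp⟩ := h1 k hk
  obtain ⟨t, ht⟩ := pow_unbounded_of_one_lt C (one_lt_two : (1 : ℝ) < 2)
  refine ⟨A + t, ?_⟩
  intro q
  induction q using Nat.recOnPosPrimePosCoprime with
  | zero => intro h; omega
  | one =>
    intro _
    refine (Wd_one _ _).trans ?_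
    unfold tau
    simp
  | prime_pow p n hpr hn =>
    intro _
    have htau : (tau (p ^ n) : ℝ) = (n : ℝ) + 1 := by
      unfold tau
      rw [Nat.divisors_prime_pow hpr, Finset.card_map, Finset.card_range]
      push_cast
      ring
    rw [htau]
    refine (hp p n hpr).trans ?_
    push_cast
    apply div_le_div_of_nonneg_right _ (by positivity)
    have hn1 : (2 : ℝ) ≤ (n : ℝ) + 1 := by
      have : (1 : ℝ) ≤ n := by exact_mod_cast hn
      linarith
    calc C * ((n : ℝ) + 1) ^ A ≤ ((n : ℝ) + 1) ^ t * ((n : ℝ) + 1) ^ A := by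
          apply mul_le_mul_of_nonneg_right _ (by positivity)
          exact ht.le.trans (pow_le_pow_left₀ (by norm_num) hn1 t)
      _ = ((n : ℝ) + 1) ^ (A + t) := by rw [← pow_add, add_comm t A]
  | coprime a b ha hb hab iha ihb =>
    intro _
    have h3 := iha ha.le
    have h4 := ihb hb.le
    have h5 := h2 (k - 1) (KN k) a b ha.le hb.le hab
    have htau : (tau (a * b) : ℝ) = (tau a : ℝ) * (tau b : ℝ) := by
      unfold tau
      rw [Nat.Coprime.card_divisors_mul hab]
      push_cast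
      ring
    rw [htau]
    push_cast
    calc Wd (k - 1) (KN k) (a * b) ≤ Wd (k - 1) (KN k) a * Wd (k - 1) (KN k) b := h5
      _ ≤ ((tau a : ℝ) ^ (A + t) / a) * ((tau b : ℝ) ^ (A + t) / b) :=
          mul_le_mul h3 h4 (Wd_nonneg _ _ _) (by positivity)
      _ = ((tau a : ℝ) * (tau b : ℝ)) ^ (A + t) / (a * b) := by
          rw [mul_pow, div_mul_div_comm]

end Pool.Agent.H19.EN
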